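import Pool.Agent.H3.OD.Targets

/-!
Board ode2_modules (MP_70ba79_ag), row LTN: the series in `u ^ (1/n)` are a subfield
-/

set_option autoImplicit false

namespace Pool.Agent.H34.OD2

open Pool.Agent.H92.OD Pool.Agent.H3.OD

variable {k : Type} [Field k]

theorem lat_sg (n : ℕ) (c : k) : Lat n (sg 0 c) := by
  intro r hr
  rw [cf_sg] at hr
  split_ifs at hr with h
  · exact ⟨0, by rw [h]; simp⟩
  · exact absurd rfl hr

theorem lat_mul {n : ℕ} {x y : HS k} (hx : Lat n x) (hy : Lat n y) : Lat n (x * y) := by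
  classical
  intro r hr
  have h1 : cf (x * y) r = ∑ ij ∈ Finset.antidiagonal
      (HahnSeries.isPWO_support (x : HahnSeries ℚ k)) (HahnSeries.isPWO_support (y : HahnSeries ℚ k)) r,
      cf x ij.1 * cf y ij.2 := HahnSeries.coeff_mul
  rw [h1] at hr
  obtain ⟨ij, hij, h2⟩ := Finset.exists_ne_zero_of_sum_ne_zero hr
  have h3 : ij.1 + ij.2 = r := (Finset.mem_antidiagonal.1 hij).2.2
  obtain ⟨a, ha⟩ := hx ij.1 (left_ne_zero_of_mul h2)
  obtain ⟨b, hb⟩ := hy ij.2 (right_ne_zero_of_mul h2)
  exact ⟨a + b, by rw [← h3, add_mul, ha, hb]; push_cast; ring⟩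

theorem lat_add {n : ℕ} {x y : HS k} (hx : Lat n x) (hy : Lat n y) : Lat n (x + y) := by
  intro r hr
  rw [cf_add] at hr
  by_cases h : cf x r = 0
  · rw [h, zero_add] at hr
    exact hy r hr
  · exact hx r h

theorem lat_inv {n : ℕ} {y : HS k} (hy : Lat n y) : Lat n y⁻¹ := by
  classical
  by_cases h0 : y = 0
  · rw [h0, inv_zero]
    intro r hr
    exact absurd (cf_zero r) hr
  set w : HS k := y⁻¹ with hw
  have hyw : y * w = 1 := mul_inv_cancel₀ h0
  by_contra hlat
  unfold Pool.Agent.H92.OD.Lat at hlat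
  push Not at hlat
  set T : Set ℚ := {s | cf w s ≠ 0 ∧ ∀ m : ℤ, s * n ≠ m} with hT
  have hTne : T.Nonempty := hlat
  have hTwf : T.IsWF := by
    have h1 : (HahnSeries.support (w : HahnSeries ℚ k)).IsWF := HahnSeries.isWF_support w
    exact h1.mono fun s hs => hs.1
  set s := hTwf.min hTne with hs
  have hsT : s ∈ T := hTwf.min_mem hTne
  have hsmin : ∀ j, j < s → cf w j ≠ 0 → ∃ m : ℤ, j * n = m := by
    intro j hj hcj
    by_contra hn
    push Not at hn
    exact hTwf.not_lt_min hTne (show j ∈ T from ⟨hcj, hn⟩) hj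
  obtain ⟨r, hr⟩ := exists_IsO h0
  obtain ⟨a, ha⟩ := hy r hr.1
  have h1 : cf (y * w) (r + s) = ∑ ij ∈ Finset.antidiagonal
      (HahnSeries.isPWO_support (y : HahnSeries ℚ k)) (HahnSeries.isPWO_support (w : HahnSeries ℚ k))
      (r + s), cf y ij.1 * cf w ij.2 := HahnSeries.coeff_mul
  have h2 : cf (y * w) (r + s) = cf y r * cf w s := by
    rw [h1, Finset.sum_eq_single (r, s)]
    · intro ij hij hne
      have h3 : ij.1 + ij.2 = r + s := (Finset.mem_antidiagonal.1 hij).2.2
      by_contra h4
      have h5 : cf y ij.1 ≠ 0 := left_ne_zero_of_mul h4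
      have h6 : cf w ij.2 ≠ 0 := right_ne_zero_of_mul h4
      have h7 : r ≤ ij.1 := by
        by_contra hlt
        exact h5 (hr.2 _ (not_le.1 hlt))
      rcases lt_or_eq_of_le (show ij.2 ≤ s by linarith) with h8 | h8
      · obtain ⟨b, hb⟩ := hsmin _ h8 h6
        obtain ⟨c, hc⟩ := hy _ h5
        apply hsT.2 (c + b - a)
        have h9 : s = ij.1 + ij.2 - r := by linarith
        rw [h9, sub_mul, add_mul, hb, hc, ha]
        push_cast
        ring
      · apply hne
        exact Prod.ext (by simpa [h8] using h3) h8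
    · intro h
      by_contra h3
      refine h (Finset.mem_antidiagonal.2 ⟨?_, ?_, rfl⟩)
      · intro h2
        exact h3 (by
          show cf y r * cf w s = 0
          have h3 : cf y r = 0 := h2
          rw [h3, zero_mul])
      · intro h2
        exact h3 (by
          show cf y r * cf w s = 0
          have h3 : cf w s = 0 := h2
          rw [h3, mul_zero])
  rw [hyw, ← sg_zero_one, cf_sg] at h2
  split_ifs at h2 with h3
  · apply hsT.2 (-a)
    have h4 : s = -r := by linarith
    rw [h4, neg_mul, ha]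
    push_cast
    ring
  · exact mul_ne_zero hr.1 hsT.1 h2.symm

theorem pf_LTN : T_LTN := by
  intro k _ _ n _
  exact ⟨{ carrier := {y | Lat n y}
           mul_mem' := fun hx hy => lat_mul hx hy
           one_mem' := lat_sg n 1
           add_mem' := fun hx hy => lat_add hx hy
           zero_mem' := fun r hr => absurd (cf_zero r) hr
           algebraMap_mem' := fun c => lat_sg n _
           inv_mem' := fun _ hx => lat_inv hx }, fun _ => Iff.rfl⟩

end Pool.Agent.H34.OD2
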